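import Mathlib
import Pool.Agent.Run7.h699.Main

set_option autoImplicit false

/-!
# A model with the full strong polarized spectrum at a strong limit singular cardinal which is not
a limit of measurable cardinals
-/

namespace Pool.Agent.Results.MP_58a5a1_lc.FullSpectrumModel

open Cardinal Run7.h699 Pool.Agent.Helper669.Forcing Pool.Agent.Helper669.K

/-- Let `κ` be `κ⁺⁺`-supercompact with `2 ^ κ = κ⁺`. Then there is a forcing notion `P` such that
in the extension `κ` is a strong limit cardinal of countable cofinality which is not a limit of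
measurable cardinals, all regular cardinals above `κ` stay regular, `κ⁺⁺ ≤ 2 ^ κ`, and for every
cardinal `μ` with `κ < μ ≤ 2 ^ κ` the strong polarized relation `(μ, κ) → (μ, κ)` holds. -/
theorem result (κ : Cardinal.{0}) (h : Supercompact κ (Order.succ (Order.succ κ)))
    (h2 : (2 : Cardinal.{0}) ^ κ = Order.succ κ) :
    ∃ (P : Type) (_ : Preorder P), Nonempty P ∧ ∀ p : P,
      p ∈ StaysStrongLimit P κ ∧ p ∈ CofinalityOmega P κ ∧ p ∈ NotLimitOfMeasurables P κ ∧
      (∀ μ : Cardinal.{0}, μ.IsRegular → κ < μ → p ∈ StaysRegular P μ) ∧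
      p ∈ LeTwoPow P (Order.succ (Order.succ κ)) κ ∧
      ∀ μ : Cardinal.{0}, κ < μ →
        p ∈ fimp (LeTwoPow P μ κ) (Polarized P μ.ord.ToType κ.ord.ToType) :=
  main κ h h2

end Pool.Agent.Results.MP_58a5a1_lc.FullSpectrumModel
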